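import Mathlib

set_option autoImplicit false

universe u

open Cardinal Set

namespace Pool.Agent.Results.MP_88803c_co.IdealAntichainsTwoPow

/-- `P` belongs to the class `D(κ)`: it contains no antichain of cardinality `κ`. -/
def InD (κ : Cardinal.{u}) (P : Type u) [PartialOrder P] : Prop :=
  ¬ ∃ A : Set P, IsAntichain (· ≤ ·) A ∧ #A = κ

/-- The poset `I(P)` of ideals of `P`: the initial and up-directed subsets of `P`, ordered by
inclusion (the order of a subtype of `Set P`). -/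
abbrev Ideals (P : Type u) [PartialOrder P] : Type u :=
  {J : Set P // IsLowerSet J ∧ DirectedOn (· ≤ ·) J}

/-- A poset without an antichain of size `#T` can be cut into few pieces, each of whose subsets of
size at most `#R` is bounded above. -/
theorem pieces (T R : Type u) [LinearOrder T] [WellFoundedLT T] [Nonempty T] [Nonempty R]
    (Q : Type u) [PartialOrder Q] [Nonempty Q] (hQ : ∀ f : T → Q, ∃ i j, i ≠ j ∧ f i ≤ f j) :
    ∃ pc : Q → (Σ i : T, (Iic i → R)), ∀ S : Set Q, #S ≤ #R →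
      (∀ x ∈ S, ∀ y ∈ S, pc x = pc y) → ∃ q, ∀ x ∈ S, x ≤ q := by
  classical
  let W : Set Q → Set Q := fun Y => {x | ∀ y ∈ Y, ¬ x ≤ y ∧ ¬ y ≤ x}
  let Good : Set Q → Prop := fun Y => ∀ B : R → Q, (∀ t, B t ∈ W Y) → ∃ q ∈ W Y, ∀ t, B t ≤ q
  have he : ∀ Y, ∃ B : R → Q, ¬ Good Y → (∀ t, B t ∈ W Y) ∧ ∀ q ∈ W Y, ∃ t, ¬ B t ≤ q := by
    intro Y
    by_cases h : Good Y
    · exact ⟨fun _ => Classical.arbitrary Q, fun h' => absurd h h'⟩
    · have h' := h
      simp only [Good] at h'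
      push Not at h'
      obtain ⟨B, hB1, hB2⟩ := h'
      exact ⟨B, fun _ => ⟨hB1, hB2⟩⟩
  choose e he using he
  let A : (T → R) → T → Q := fun c => (wellFounded_lt (α := T)).fix
    (fun i rec => e {q | ∃ j, ∃ h : j < i, rec j h = q} (c i))
  let Y : (T → R) → T → Set Q := fun c i => {q | ∃ j, j < i ∧ A c j = q}
  have hA : ∀ c i, A c i = e (Y c i) (c i) := by
    intro c i
    have h1 : A c i = e {q | ∃ j, ∃ _ : j < i, A c j = q} (c i) :=
      (wellFounded_lt (α := T)).fix_eq _ i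
    rw [h1]
    congr 1
    congr 1
    ext q
    simp only [exists_prop]
  have hAcongr : ∀ c c' : T → R, ∀ i, (∀ j ≤ i, c j = c' j) → A c i = A c' i := by
    intro c c' i
    induction i using (wellFounded_lt (α := T)).induction with
    | _ i ih =>
      intro h
      have hY : Y c i = Y c' i := by
        ext q
        constructor
        · rintro ⟨j, hj, rfl⟩
          exact ⟨j, hj, (ih j hj (fun k hk => h k (hk.trans hj.le))).symm⟩
        · rintro ⟨j, hj, rfl⟩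
          exact ⟨j, hj, ih j hj (fun k hk => h k (hk.trans hj.le))⟩
      rw [hA, hA, h i le_rfl, hY]
  have hYcongr : ∀ c c' : T → R, ∀ i, (∀ j ≤ i, c j = c' j) → Y c i = Y c' i := by
    intro c c' i h
    ext q
    constructor
    · rintro ⟨j, hj, rfl⟩
      exact ⟨j, hj, (hAcongr c c' j (fun k hk => h k (hk.trans hj.le))).symm⟩
    · rintro ⟨j, hj, rfl⟩
      exact ⟨j, hj, hAcongr c c' j (fun k hk => h k (hk.trans hj.le))⟩
  have hex : ∀ x : Q, ∃ (c : T → R) (i : T),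
      x ∈ W (Y c i) ∧ (Good (Y c i) ∨ x ≤ A c i) := by
    intro x
    let τ : Set Q → R := fun Z => if h : ∃ t, ¬ e Z t ≤ x then h.choose else Classical.arbitrary R
    have hτ : ∀ Z, (∃ t, ¬ e Z t ≤ x) → ¬ e Z (τ Z) ≤ x := by
      intro Z h
      simp only [τ, dif_pos h]
      exact h.choose_spec
    let b : T → Q := (wellFounded_lt (α := T)).fix
      (fun i rec => e {q | ∃ j, ∃ h : j < i, rec j h = q} (τ {q | ∃ j, ∃ h : j < i, rec j h = q}))
    let Z : T → Set Q := fun i => {q | ∃ j, j < i ∧ b j = q}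
    have hb : ∀ i, b i = e (Z i) (τ (Z i)) := by
      intro i
      have h1 : b i = e {q | ∃ j, ∃ _ : j < i, b j = q} (τ {q | ∃ j, ∃ _ : j < i, b j = q}) :=
        (wellFounded_lt (α := T)).fix_eq _ i
      rw [h1]
      simp only [exists_prop, Z]
    let c : T → R := fun i => τ (Z i)
    have hAb : ∀ i, A c i = b i := by
      intro i
      induction i using (wellFounded_lt (α := T)).induction with
      | _ i ih =>
        have h1 : Y c i = Z i := by
          ext q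
          constructor
          · rintro ⟨j, hj, rfl⟩
            exact ⟨j, hj, (ih j hj).symm⟩
          · rintro ⟨j, hj, rfl⟩
            exact ⟨j, hj, ih j hj⟩
        rw [hA, hb, h1]
    have hYZ : ∀ i, Y c i = Z i := by
      intro i
      ext q
      constructor
      · rintro ⟨j, hj, rfl⟩
        exact ⟨j, hj, (hAb j).symm⟩
      · rintro ⟨j, hj, rfl⟩
        exact ⟨j, hj, hAb j⟩
    by_contra hcon
    push Not at hcon
    have hcon' : ∀ i, x ∈ W (Z i) → ¬ Good (Z i) ∧ ¬ x ≤ b i := by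
      intro i hx
      have h1 := hcon c i
      rw [hYZ i, hAb i] at h1
      exact h1 hx
    have hinc : ∀ i, ¬ x ≤ b i ∧ ¬ b i ≤ x := by
      intro i
      induction i using (wellFounded_lt (α := T)).induction with
      | _ i ih =>
        have hx : x ∈ W (Z i) := by
          rintro y ⟨j, hj, rfl⟩
          exact ih j hj
        obtain ⟨h1, h2⟩ := hcon' i hx
        refine ⟨h2, ?_⟩
        rw [hb i]
        exact hτ _ ((he (Z i) h1).2 x hx)
    have hW : ∀ i, b i ∈ W (Z i) := by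
      intro i
      have hx : x ∈ W (Z i) := by
        rintro y ⟨j, _, rfl⟩
        exact hinc j
      obtain ⟨h1, _⟩ := hcon' i hx
      rw [hb i]
      exact (he (Z i) h1).1 _
    obtain ⟨i, j, hij, hle⟩ := hQ b
    rcases lt_or_gt_of_ne hij with h | h
    · exact (hW j (b i) ⟨i, h, rfl⟩).2 hle
    · exact (hW i (b j) ⟨j, h, rfl⟩).1 hle
  choose c i hci using hex
  refine ⟨fun x => ⟨i x, fun j => c x j.1⟩, ?_⟩
  intro S hS hpc
  rcases S.eq_empty_or_nonempty with rfl | ⟨x0, hx0⟩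
  · exact ⟨Classical.arbitrary Q, by simp⟩
  have h1 : ∀ x ∈ S, i x = i x0 ∧ ∀ j ≤ i x0, c x j = c x0 j := by
    intro x hx
    have h2 := hpc x hx x0 hx0
    have h3 : i x = i x0 := congrArg Sigma.fst h2
    refine ⟨h3, ?_⟩
    intro j hj
    have h4 : ∀ (s s' : Σ i : T, (Iic i → R)), s = s' → ∀ (hj : j ≤ s.1) (hj' : j ≤ s'.1),
        s.2 ⟨j, hj⟩ = s'.2 ⟨j, hj'⟩ := by
      rintro s s' rfl hj hj'
      rfl
    exact h4 _ _ h2 (by show j ≤ i x; rw [h3]; exact hj) hj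
  have hY : ∀ x ∈ S, Y (c x) (i x) = Y (c x0) (i x0) := by
    intro x hx
    rw [(h1 x hx).1]
    exact hYcongr _ _ _ (h1 x hx).2
  have hAx : ∀ x ∈ S, A (c x) (i x) = A (c x0) (i x0) := by
    intro x hx
    rw [(h1 x hx).1]
    exact hAcongr _ _ _ (h1 x hx).2
  by_cases hg : Good (Y (c x0) (i x0))
  · have hne : Nonempty S := ⟨⟨x0, hx0⟩⟩
    obtain ⟨g, hg'⟩ : ∃ g : R → S, Function.Surjective g := by
      rw [Cardinal.le_def] at hS
      obtain ⟨φ⟩ := hS
      exact ⟨Function.invFun φ, Function.invFun_surjective φ.injective⟩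
    obtain ⟨q, _, hq⟩ := hg (fun t => (g t).1) (by
      intro t
      have := (hci (g t).1).1
      rwa [hY _ (g t).2] at this)
    refine ⟨q, ?_⟩
    intro x hx
    obtain ⟨t, ht⟩ := hg' ⟨x, hx⟩
    have := hq t
    rwa [ht] at this
  · refine ⟨A (c x0) (i x0), ?_⟩
    intro x hx
    rcases (hci x).2 with h | h
    · rw [hY x hx] at h
      exact absurd h hg
    · rwa [hAx x hx] at h

/-- A version of the Erdős–Rado theorem: existence of long end-homogeneous sequences. -/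
theorem end_homogeneous {Λ C S : Type u} [LinearOrder S] [WellFoundedLT S] (ν : Cardinal.{u})
    (hν : ℵ₀ ≤ ν) (hS : #S ≤ Order.succ ν) (hSi : ∀ i : S, #(Iio i) ≤ ν) (hC : #C ≤ 2 ^ ν)
    (hΛ : 2 ^ ν < #Λ) (f : Λ → Λ → C) :
    ∃ (b : S → Λ) (g : S → C), ∀ j i, j < i → b j ≠ b i ∧ f (b j) (b i) = g j := by
  classical
  have hne : Nonempty Λ := by
    rw [← mk_ne_zero_iff]
    exact (bot_le.trans_lt hΛ).ne'
  let pick : Set Λ → Λ := fun Z => if h : Z.Nonempty then h.choose else Classical.arbitrary Λ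
  have hpick : ∀ Z : Set Λ, Z.Nonempty → pick Z ∈ Z := by
    intro Z h
    simp only [pick, dif_pos h]
    exact h.choose_spec
  let b : Λ → S → Λ := fun δ => (wellFounded_lt (α := S)).fix
    (fun i rec => pick {α | ∀ j, ∀ h : j < i, α ≠ rec j h ∧ f (rec j h) α = f (rec j h) δ})
  let Z : Λ → S → Set Λ := fun δ i =>
    {α | ∀ j, j < i → α ≠ b δ j ∧ f (b δ j) α = f (b δ j) δ}
  have hb : ∀ δ i, b δ i = pick (Z δ i) := by
    intro δ i
    exact (wellFounded_lt (α := S)).fix_eq _ i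
  have hbcongr : ∀ δ δ' : Λ, ∀ i : S, (∀ j, j < i → f (b δ j) δ = f (b δ' j) δ') →
      b δ i = b δ' i := by
    intro δ δ' i
    induction i using (wellFounded_lt (α := S)).induction with
    | _ i ih =>
      intro h
      rw [hb, hb]
      congr 1
      have h1 : ∀ j, j < i → b δ j = b δ' j :=
        fun j hj => ih j hj (fun k hk => h k (hk.trans hj))
      ext α
      constructor
      · intro hα j hj
        have := hα j hj
        rw [h j hj] at this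
        rwa [h1 j hj] at this
      · intro hα j hj
        have := hα j hj
        rw [← h j hj] at this
        rwa [← h1 j hj] at this
  -- some `δ` is never reached
  have hδ : ∃ δ : Λ, ∀ i, b δ i ≠ δ := by
    by_contra hcon
    push Not at hcon
    choose i hi using hcon
    have hinj : Function.Injective
        (fun δ : Λ => (⟨i δ, fun j => f (b δ j.1) δ⟩ : Σ i : S, (Iio i → C))) := by
      intro δ δ' h
      have h3 : i δ = i δ' := congrArg Sigma.fst h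
      have h4 : ∀ (s s' : Σ i : S, (Iio i → C)), s = s' → ∀ (j : S) (hj : j < s.1)
          (hj' : j < s'.1), s.2 ⟨j, hj⟩ = s'.2 ⟨j, hj'⟩ := by
        rintro s s' rfl j hj hj'
        rfl
      have h5 : ∀ j, j < i δ' → f (b δ j) δ = f (b δ' j) δ' := by
        intro j hj
        exact h4 _ _ h j (by show j < i δ; rw [h3]; exact hj) hj
      have h6 := hbcongr δ δ' (i δ') h5
      rw [hi δ', ← h3, hi δ] at h6
      exact h6
    have h1 := mk_le_of_injective hinj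
    have h2 : #(Σ i : S, (Iio i → C)) ≤ 2 ^ ν := by
      rw [mk_sigma]
      refine (sum_le_sum _ (fun _ => (2 : Cardinal.{u}) ^ ν) (fun i => ?_)).trans ?_
      · rw [← power_def]
        calc #C ^ #(Iio i) ≤ (2 ^ ν) ^ ν := by
              refine (power_le_power_right hC).trans (power_le_power_left ?_ (hSi i))
              exact (bot_le.trans_lt (cantor ν)).ne'
          _ = 2 ^ ν := by rw [← power_mul, mul_eq_self hν]
      · rw [sum_const']
        have h3 : ℵ₀ ≤ (2 : Cardinal.{u}) ^ ν := hν.trans (cantor ν).le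
        refine (mul_le_mul' (hS.trans (Order.succ_le_of_lt (cantor ν))) le_rfl).trans ?_
        exact (mul_eq_self h3).le
    exact absurd (h1.trans h2) (not_le.mpr hΛ)
  obtain ⟨δ, hδ⟩ := hδ
  refine ⟨b δ, fun j => f (b δ j) δ, ?_⟩
  intro j i hji
  have h1 : δ ∈ Z δ i := fun k _ => ⟨(hδ k).symm, rfl⟩
  have h2 := hpick _ ⟨δ, h1⟩
  rw [← hb δ i] at h2
  exact ⟨(h2 j hji).1.symm, (h2 j hji).2⟩

/-- A two-level version of `pieces`. -/
theorem two_level (T Θ : Type u) [LinearOrder T] [WellFoundedLT T] [Nonempty T] [Nonempty Θ]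
    (t : Θ → T) (Q : Type u) [PartialOrder Q] [Nonempty Q]
    (hQ : ∀ f : T → Q, ∃ i j, i ≠ j ∧ f i ≤ f j) :
    ∃ (pc0 : Q → (Σ i : T, (Iic i → Θ))) (pck : ∀ k : Θ, Q → (Σ i : T, (Iic i → Iic (t k)))),
      ∀ (B : Θ → Set Q), (∀ l, #(B l) ≤ #(Iic (t l))) →
        (∀ l l' x y, x ∈ B l → y ∈ B l' → pc0 x = pc0 y) →
        (∀ l, ∀ x ∈ B l, ∀ y ∈ B l, pck l x = pck l y) → ∃ q, ∀ l, ∀ x ∈ B l, x ≤ q := by
  classical
  obtain ⟨pc0, h0⟩ := pieces T Θ Q hQ
  have h1 : ∀ (c : Σ i : T, (Iic i → Θ)) (k : Θ),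
      ∃ pcs : {x : Q // pc0 x = c} → (Σ i : T, (Iic i → Iic (t k))),
      ∀ S : Set {x : Q // pc0 x = c}, #S ≤ #(Iic (t k)) → S.Nonempty →
        (∀ x ∈ S, ∀ y ∈ S, pcs x = pcs y) → ∃ q, ∀ x ∈ S, x ≤ q := by
    intro c k
    by_cases hne : Nonempty {x : Q // pc0 x = c}
    · have : Nonempty (Iic (t k)) := ⟨⟨t k, le_rfl⟩⟩
      obtain ⟨pcs, h⟩ := pieces T (Iic (t k)) {x : Q // pc0 x = c} (fun f => by
        obtain ⟨i, j, hij, hle⟩ := hQ (fun s => (f s).1)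
        exact ⟨i, j, hij, hle⟩)
      exact ⟨pcs, fun S hS _ h' => h S hS h'⟩
    · exact ⟨fun x => absurd ⟨x⟩ hne, fun S _ hS => absurd ⟨hS.some⟩ hne⟩
  choose pcs hpcs using h1
  refine ⟨pc0, fun k x => pcs (pc0 x) k ⟨x, rfl⟩, ?_⟩
  intro B hB hB0 hBk
  have h3 : ∀ l c (x : Q) (h : pc0 x = c), pcs (pc0 x) l ⟨x, rfl⟩ = pcs c l ⟨x, h⟩ := by
    rintro l _ x rfl
    rfl
  have h2 : ∀ l, (B l).Nonempty → ∃ z : Q, ∀ x ∈ B l, x ≤ z ∧ pc0 x = pc0 z := by
    rintro l ⟨x0, hx0⟩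
    obtain ⟨q, hq⟩ := hpcs (pc0 x0) l {x | x.1 ∈ B l} (by
        refine le_trans ?_ (hB l)
        refine mk_le_of_injective (f := fun x => (⟨x.1.1, x.2⟩ : B l)) ?_
        rintro ⟨⟨x, hx⟩, hx'⟩ ⟨⟨y, hy⟩, hy'⟩ hxy
        simpa using hxy) ⟨⟨x0, rfl⟩, hx0⟩ (by
        rintro ⟨x, hx⟩ hxS ⟨y, hy⟩ hyS
        rw [← h3 l _ x hx, ← h3 l _ y hy]
        exact hBk l x hxS y hyS)
    refine ⟨q.1, fun x hx => ⟨?_, ?_⟩⟩
    · exact hq ⟨x, hB0 l l x x0 hx hx0⟩ hx
    · rw [q.2]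
      exact hB0 l l x x0 hx hx0
  choose! z hz using h2
  obtain ⟨q, hq⟩ := h0 (z '' {l | (B l).Nonempty}) (mk_image_le.trans (mk_subtype_le _)) (by
    rintro _ ⟨l, ⟨x, hx⟩, rfl⟩ _ ⟨l', ⟨y, hy⟩, rfl⟩
    rw [← (hz l ⟨x, hx⟩ x hx).2, ← (hz l' ⟨y, hy⟩ y hy).2]
    exact hB0 l l' x y hx hy)
  exact ⟨q, fun l x hx => ((hz l ⟨x, hx⟩ x hx).1).trans (hq _ ⟨l, ⟨x, hx⟩, rfl⟩)⟩

/-- Pigeonhole principle. -/
theorem pigeon {S D : Type u} (κ : Cardinal.{u}) (hκ : ℵ₀ ≤ κ) (X : Set S) (hX : κ < #X)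
    (h : S → D) (hD : #D ≤ κ) : ∃ d, κ < #{x | x ∈ X ∧ h x = d} := by
  by_contra hcon
  push Not at hcon
  have h1 : X ⊆ ⋃ d, {x | x ∈ X ∧ h x = d} := by
    intro s hs
    exact Set.mem_iUnion.mpr ⟨h s, hs, rfl⟩
  have h2 : #X ≤ κ := by
    refine (mk_le_mk_of_subset h1).trans ((mk_iUnion_le _).trans ?_)
    refine (mul_le_mul' hD (ciSup_le' (a := κ) ?_)).trans (mul_eq_self hκ).le
    intro d
    exact hcon d
  exact absurd hX (not_lt.mpr h2)

/-- A strictly increasing choice of elements from large sets. -/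
theorem increasing {T S : Type u} [LinearOrder T] [WellFoundedLT T] [LinearOrder S]
    (κ : Cardinal.{u}) (hκ : ℵ₀ ≤ κ) (hT : ∀ i : T, #(Iio i) ≤ κ) (hS : ∀ i : S, #(Iic i) ≤ κ)
    (U : T → Set S) (hU : ∀ y, κ < #(U y)) :
    ∃ ι : T → S, (∀ y, ι y ∈ U y) ∧ ∀ x y, x < y → ι x < ι y := by
  classical
  have hstep : ∀ (y : T) (rec : ∀ x : T, x < y → S), ∃ s, s ∈ U y ∧ ∀ x (h : x < y), rec x h < s := by
    intro y rec
    by_contra hcon
    push Not at hcon
    have h1 : U y ⊆ ⋃ x : Iio y, Iic (rec x.1 x.2) := by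
      intro s hs
      obtain ⟨x, h, hx⟩ := hcon s hs
      exact Set.mem_iUnion.mpr ⟨⟨x, h⟩, hx⟩
    have h2 : #(U y) ≤ κ := by
      refine (mk_le_mk_of_subset h1).trans ((mk_iUnion_le _).trans ?_)
      refine (mul_le_mul' (hT y) (ciSup_le' (a := κ) ?_)).trans (mul_eq_self hκ).le
      intro x
      exact hS _
    exact absurd (hU y) (not_lt.mpr h2)
  let ι : T → S := (wellFounded_lt (α := T)).fix (fun y rec => (hstep y rec).choose)
  have hι : ∀ y, ι y = (hstep y (fun x _ => ι x)).choose := by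
    intro y
    exact (wellFounded_lt (α := T)).fix_eq _ y
  refine ⟨ι, fun y => ?_, fun x y hxy => ?_⟩
  · rw [hι y]
    exact (hstep y (fun x _ => ι x)).choose_spec.1
  · have := (hstep y (fun x _ => ι x)).choose_spec.2 x hxy
    rwa [← hι y] at this

theorem power_le_two_powerlt {μ ρ c : Cardinal.{u}} (hμ : ℵ₀ ≤ μ) (hρ : ρ < μ) (hc : c < μ) :
    ρ ^ c ≤ 2 ^< μ := by
  calc ρ ^ c ≤ (2 ^ ρ) ^ c := power_le_power_right (cantor ρ).le
    _ = 2 ^ (ρ * c) := by rw [power_mul]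
    _ ≤ 2 ^< μ := le_powerlt 2 (mul_lt_of_lt hμ hρ hc)

theorem le_two_powerlt (μ : Cardinal.{u}) : μ ≤ 2 ^< μ := by
  by_contra hcon
  push Not at hcon
  have h1 : (2 : Cardinal.{u}) ^ (2 ^< μ) ≤ 2 ^< μ := le_powerlt 2 hcon
  exact absurd (cantor _) (not_lt.mpr h1)

/-- A cofinal subset of few elements: for infinite `μ`, a well order `T` of type `μ` has a cofinal
subset `Θ` such that there are at most `2 ^< μ` functions from any proper initial segment into
`Θ`. -/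
theorem cofinal (μ : Cardinal.{u}) (hμ : ℵ₀ ≤ μ) (T : Type u) [LinearOrder T] [WellFoundedLT T]
    (hT : #T = μ) (hTi : ∀ i : T, #(Iic i) < μ) :
    ∃ Θ : Set T, (∀ x : T, ∃ y ∈ Θ, x ≤ y) ∧ ∀ i : T, #(Iic i → Θ) ≤ 2 ^< μ := by
  classical
  obtain ⟨c, ⟨Θ, hΘ, rfl⟩, hmin⟩ := WellFounded.has_min (α := Cardinal.{u}) (r := (· < ·))
    wellFounded_lt {c | ∃ Θ : Set T, (∀ x : T, ∃ y ∈ Θ, x ≤ y) ∧ #Θ = c}
    ⟨_, Set.univ, fun x => ⟨x, Set.mem_univ _, le_rfl⟩, rfl⟩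
  refine ⟨Θ, hΘ, fun i => ?_⟩
  have hΘle : #Θ ≤ μ := by rw [← hT]; exact mk_set_le Θ
  rcases hΘle.lt_or_eq with hlt | heq
  · rw [← power_def]
    exact power_le_two_powerlt hμ hlt (hTi i)
  · -- every function from `Iic i` to `T` is bounded
    have hbd : ∀ f : Iic i → Θ, ∃ x : T, ∀ a, (f a).1 ≤ x := by
      intro f
      by_contra hcon
      push Not at hcon
      have h1 : ∀ x : T, ∃ y ∈ Set.range (fun a => (f a).1), x ≤ y := by
        intro x
        obtain ⟨a, ha⟩ := hcon x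
        exact ⟨_, ⟨a, rfl⟩, ha.le⟩
      refine hmin _ ⟨_, h1, rfl⟩ ?_
      rw [heq]
      exact mk_range_le.trans_lt (hTi i)
    choose x hx using hbd
    have hinj : Function.Injective
        (fun f : Iic i → Θ => (⟨x f, fun a => ⟨(f a).1, hx f a⟩⟩ : Σ x : T, (Iic i → Iic x))) := by
      intro f f' h
      have h3 : x f = x f' := congrArg Sigma.fst h
      have h4 : ∀ (s s' : Σ x : T, (Iic i → Iic x)), s = s' → ∀ a, (s.2 a).1 = (s'.2 a).1 := by
        rintro s s' rfl a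
        rfl
      funext a
      exact Subtype.ext (h4 _ _ h a)
    refine (mk_le_of_injective hinj).trans ?_
    rw [mk_sigma]
    refine (sum_le_sum _ (fun _ => (2 : Cardinal.{u}) ^< μ) (fun j => ?_)).trans ?_
    · rw [← power_def]
      exact power_le_two_powerlt hμ (hTi j) (hTi i)
    · rw [sum_const', hT]
      exact (mul_le_mul' (le_two_powerlt μ) le_rfl).trans
        (mul_eq_self (hμ.trans (le_two_powerlt μ))).le

/-- Main bound, for infinite `μ`. -/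
theorem main (μ : Cardinal.{u}) (hμ : ℵ₀ ≤ μ) (P : Type u) [PartialOrder P] (hP : InD μ P) :
    InD (Order.succ (2 ^ (2 ^< μ))) (Ideals P) := by
  classical
  rintro ⟨𝒜, hanti, hcard⟩
  obtain ⟨T, hT⟩ : ∃ T : Type u, #T = μ := ⟨μ.out, mk_out μ⟩
  obtain ⟨_, _, hTo⟩ := exists_ord_eq_type_lt T
  have hTne : Nonempty T := by
    rw [← mk_ne_zero_iff, hT]
    exact (aleph0_pos.trans_le hμ).ne'
  set κ : Cardinal.{u} := 2 ^< μ with hκdef
  have h1μ : (1 : Cardinal.{u}) < μ := one_lt_aleph0.trans_le hμ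
  have hμκ : μ ≤ κ := le_two_powerlt μ
  have hκ : ℵ₀ ≤ κ := hμ.trans hμκ
  have hκκ : κ ≤ 2 ^ κ := (cantor κ).le
  have h2κ : ℵ₀ ≤ (2 : Cardinal.{u}) ^ κ := hκ.trans hκκ
  have hTlt : ∀ i : T, #(Iio i) < μ := by
    intro i
    have h5 := mk_Iio_lt i hTo
    rwa [hT] at h5
  have hTi : ∀ i : T, #(Iic i) < μ := by
    intro i
    have h4 : Set.Iic i = insert i (Set.Iio i) := by
      ext x; simp [le_iff_eq_or_lt]
    rw [h4]
    refine mk_insert_le.trans_lt ?_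
    exact add_lt_of_lt hμ (hTlt i) h1μ
  obtain ⟨Θ, hΘ, hΘc⟩ := cofinal μ hμ T hT hTi
  choose kf hkf hkf' using hΘ
  let k : T → Θ := fun x => ⟨kf x, hkf x⟩
  have hΘne : Nonempty Θ := hTne.map k
  have hΘle : #Θ ≤ μ := by rw [← hT]; exact mk_set_le Θ
  -- the numbers of labels
  have hsum : ∀ (c : Cardinal.{u}) (F : T → Type u), κ ≤ c → (∀ i, #(F i) ≤ c) →
      #(Σ i : T, F i) ≤ c := by
    intro c F hc hF
    rw [mk_sigma]
    refine (sum_le_sum _ (fun _ => c) hF).trans ?_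
    rw [sum_const', hT]
    exact (mul_le_mul' (hμκ.trans hc) le_rfl).trans (mul_eq_self (hκ.trans hc)).le
  have hF : #(Σ i : T, (Iic i → T)) ≤ 2 ^ κ := by
    refine hsum _ _ hκκ (fun i => ?_)
    rw [← power_def, hT]
    calc μ ^ #(Iic i) ≤ (2 ^ κ) ^ κ := by
          refine (power_le_power_right (hμκ.trans hκκ)).trans (power_le_power_left ?_ ?_)
          · exact (aleph0_pos.trans_le h2κ).ne'
          · exact (hTi i).le.trans hμκ
      _ = 2 ^ κ := by rw [← power_mul, mul_eq_self hκ]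
  have hC0 : #(Σ i : T, (Iic i → Θ)) ≤ κ := hsum _ _ le_rfl hΘc
  have hCk : ∀ l : Θ, #(Σ i : T, (Iic i → Iic l.1)) ≤ κ := by
    intro l
    refine hsum _ _ le_rfl (fun i => ?_)
    rw [← power_def]
    exact power_le_two_powerlt hμ (hTi _) (hTi i)
  have hCp : #(∀ l : Θ, (Σ i : T, (Iic i → Iic l.1))) ≤ 2 ^ κ := by
    rw [mk_pi]
    refine (prod_le_prod _ (fun _ => (2 : Cardinal.{u}) ^ κ) (fun l => (hCk l).trans hκκ)).trans ?_
    rw [prod_const']
    calc ((2 : Cardinal.{u}) ^ κ) ^ #Θ ≤ ((2 : Cardinal.{u}) ^ κ) ^ κ := by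
          refine power_le_power_left ?_ (hΘle.trans hμκ)
          exact (aleph0_pos.trans_le h2κ).ne'
      _ = 2 ^ κ := by rw [← power_mul, mul_eq_self hκ]
  -- no antichain indexed by `T`
  have hP' : ∀ f : T → P, ∃ i j, i ≠ j ∧ f i ≤ f j := by
    intro f
    by_contra hcon
    push Not at hcon
    have hinj : Function.Injective f := by
      intro i j hij
      by_contra hne
      exact hcon i j hne hij.le
    apply hP
    refine ⟨Set.range f, ?_, ?_⟩
    · rintro _ ⟨i, rfl⟩ _ ⟨j, rfl⟩ hne hle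
      exact hcon i j (fun h => hne (by rw [h])) hle
    · rw [mk_range_eq f hinj, hT]
  -- the ideals of the antichain
  let J : 𝒜 → Set P := fun a => a.1.1
  have hJlow : ∀ a, IsLowerSet (J a) := fun a => a.1.2.1
  have hJdir : ∀ a, DirectedOn (· ≤ ·) (J a) := fun a => a.1.2.2
  have hJ : ∀ a b : 𝒜, a ≠ b → ∃ p, p ∈ J a ∧ p ∉ J b := by
    intro a b hab
    have h1 : ¬ (a.1 ≤ b.1) := hanti a.2 b.2 (fun h => hab (Subtype.ext h))
    exact Set.not_subset.mp h1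
  have h𝒜 : 2 ^ κ < #𝒜 := by rw [hcard]; exact Order.lt_succ _
  have hne𝒜 : ∃ a b : 𝒜, a ≠ b := by
    have h1 : (1 : Cardinal.{u}) < #𝒜 :=
      lt_of_lt_of_le (one_lt_aleph0.trans_le hκ) (hκκ.trans h𝒜.le)
    rw [one_lt_iff_nontrivial] at h1
    exact exists_pair_ne _
  have hJne : ∀ a : 𝒜, (J a).Nonempty := by
    intro a
    obtain ⟨x, y, hxy⟩ := hne𝒜
    by_cases h : a = x
    · obtain ⟨p, hp, _⟩ := hJ a y (h ▸ hxy)
      exact ⟨p, hp⟩
    · obtain ⟨p, hp, _⟩ := hJ a x h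
      exact ⟨p, hp⟩
  have hJne' : ∀ a : 𝒜, Nonempty (J a) := fun a => (hJne a).to_subtype
  have hJanti : ∀ (a : 𝒜) (f : T → J a), ∃ i j, i ≠ j ∧ f i ≤ f j := by
    intro a f
    obtain ⟨i, j, hij, hle⟩ := hP' (fun t => (f t).1)
    exact ⟨i, j, hij, hle⟩
  -- labels inside every ideal
  have hforw : ∀ a : 𝒜, ∃ pc : J a → (Σ i : T, (Iic i → T)), ∀ S : Set (J a), #S ≤ #T →
      (∀ x ∈ S, ∀ y ∈ S, pc x = pc y) → ∃ q, ∀ x ∈ S, x ≤ q := by
    intro a
    have := hJne' a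
    exact pieces T T (J a) (hJanti a)
  choose pc hpc using hforw
  have hback : ∀ a : 𝒜, ∃ (pc0 : J a → (Σ i : T, (Iic i → Θ)))
      (pck : ∀ l : Θ, J a → (Σ i : T, (Iic i → Iic l.1))),
      ∀ (B : Θ → Set (J a)), (∀ l, #(B l) ≤ #(Iic l.1)) →
        (∀ l l' x y, x ∈ B l → y ∈ B l' → pc0 x = pc0 y) →
        (∀ l, ∀ x ∈ B l, ∀ y ∈ B l, pck l x = pck l y) → ∃ q, ∀ l, ∀ x ∈ B l, x ≤ q := by
    intro a
    have := hJne' a
    exact two_level T Θ (fun l => l.1) (J a) (hJanti a)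
  choose pc0 pck hpck using hback
  have hp : ∀ a b : 𝒜, ∃ p : J a, a ≠ b → p.1 ∉ J b := by
    intro a b
    by_cases h : a = b
    · obtain ⟨p, hp⟩ := hJne a
      exact ⟨⟨p, hp⟩, fun h' => absurd h h'⟩
    · obtain ⟨p, hp1, hp2⟩ := hJ a b h
      exact ⟨⟨p, hp1⟩, fun _ => hp2⟩
  choose p hp using hp
  -- end-homogeneous sequence
  obtain ⟨S, hS⟩ : ∃ S : Type u, #S = Order.succ κ := ⟨(Order.succ κ).out, mk_out _⟩
  obtain ⟨_, _, hSo⟩ := exists_ord_eq_type_lt S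
  have hSi : ∀ i : S, #(Iio i) ≤ κ := by
    intro i
    have := mk_Iio_lt i hSo
    rw [hS] at this
    exact Order.lt_succ_iff.mp this
  have hSic : ∀ i : S, #(Iic i) ≤ κ := by
    intro i
    have h4 : Set.Iic i = insert i (Set.Iio i) := by
      ext x; simp [le_iff_eq_or_lt]
    rw [h4]
    refine mk_insert_le.trans ?_
    exact add_le_of_le hκ (hSi i) (one_lt_aleph0.le.trans hκ)
  have hC : #((Σ i : T, (Iic i → T)) × ((Σ i : T, (Iic i → Θ)) ×
      (∀ l : Θ, (Σ i : T, (Iic i → Iic l.1))))) ≤ 2 ^ κ := by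
    rw [mk_prod, lift_id, lift_id, mk_prod, lift_id, lift_id]
    refine (mul_le_mul' hF (mul_le_mul' (hC0.trans hκκ) hCp)).trans ?_
    rw [mul_eq_self h2κ, mul_eq_self h2κ]
  obtain ⟨b, g, hbg⟩ := end_homogeneous (S := S) κ hκ hS.le hSi hC h𝒜
    (fun a b => (pc a (p a b), pc0 b (p b a), fun l => pck b l (p b a)))
  -- pigeonhole
  obtain ⟨c0, hc0⟩ := pigeon κ hκ (Set.univ : Set S) (by rw [mk_univ, hS]; exact Order.lt_succ _)
    (fun s => (g s).2.1) hC0
  have hek : ∀ l : Θ, ∃ e, κ < #{x | x ∈ {x | x ∈ (Set.univ : Set S) ∧ (g x).2.1 = c0} ∧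
      (g x).2.2 l = e} := fun l => pigeon κ hκ _ hc0 (fun s => (g s).2.2 l) (hCk l)
  choose e he using hek
  obtain ⟨ι, hιU, hιlt⟩ := increasing κ hκ (fun i => (hTlt i).le.trans hμκ) hSic
    (fun y => {x | x ∈ {x | x ∈ (Set.univ : Set S) ∧ (g x).2.1 = c0} ∧ (g x).2.2 (k y) = e (k y)})
    (fun y => he (k y))
  have hι0 : ∀ y, (g (ι y)).2.1 = c0 := fun y => (hιU y).1.2
  have hιk : ∀ y, (g (ι y)).2.2 (k y) = e (k y) := fun y => (hιU y).2
  let a : T → 𝒜 := fun t => b (ι t)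
  have hane : ∀ t t', t ≠ t' → a t ≠ a t' := by
    intro t t' h
    rcases lt_or_gt_of_ne h with h' | h'
    · exact (hbg _ _ (hιlt _ _ h')).1
    · exact (hbg _ _ (hιlt _ _ h')).1.symm
  -- labels
  have hlab1 : ∀ t t', t < t' → pc (a t) (p (a t) (a t')) = (g (ι t)).1 := by
    intro t t' h
    exact congrArg Prod.fst (hbg _ _ (hιlt _ _ h)).2
  have hlab2 : ∀ t t', t' < t → pc0 (a t) (p (a t) (a t')) = c0 := by
    intro t t' h
    rw [← hι0 t']
    exact congrArg (fun x => x.2.1) (hbg _ _ (hιlt _ _ h)).2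
  have hlab3 : ∀ t t', t' < t → pck (a t) (k t') (p (a t) (a t')) = e (k t') := by
    intro t t' h
    rw [← hιk t']
    exact congrArg (fun x => x.2.2 (k t')) (hbg _ _ (hιlt _ _ h)).2
  -- bounds
  have hr : ∀ t : T, ∃ r : P, r ∈ J (a t) ∧ ∀ t', t ≠ t' → r ∉ J (a t') := by
    intro t
    obtain ⟨q1, hq1⟩ := hpc (a t) ((fun t' => p (a t) (a t')) '' {t' | t < t'})
      (mk_image_le.trans (mk_subtype_le _)) (by
        rintro _ ⟨t1, h1, rfl⟩ _ ⟨t2, h2, rfl⟩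
        rw [hlab1 t t1 h1, hlab1 t t2 h2])
    obtain ⟨q2, hq2⟩ := hpck (a t)
      (fun l => (fun t' => p (a t) (a t')) '' {t' | t' < t ∧ k t' = l})
      (by
        intro l
        refine mk_image_le.trans (mk_le_mk_of_subset ?_)
        rintro x ⟨_, rfl⟩
        exact hkf' x)
      (by
        rintro l l' _ _ ⟨t1, h1, rfl⟩ ⟨t2, h2, rfl⟩
        rw [hlab2 t t1 h1.1, hlab2 t t2 h2.1])
      (by
        rintro l _ ⟨t1, ⟨h1, rfl⟩, rfl⟩ _ ⟨t2, ⟨h2, h3⟩, rfl⟩
        rw [hlab3 t t1 h1]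
        rw [← h3]
        rw [hlab3 t t2 h2])
    obtain ⟨r, hr, hr1, hr2⟩ := hJdir (a t) q1.1 q1.2 q2.1 q2.2
    refine ⟨r, hr, ?_⟩
    intro t' htt' hmem
    have h3 : (p (a t) (a t')).1 ≤ r := by
      rcases lt_or_gt_of_ne htt' with h | h
      · have h4 : p (a t) (a t') ≤ q1 := hq1 _ ⟨t', h, rfl⟩
        exact le_trans h4 hr1
      · have h4 : p (a t) (a t') ≤ q2 := hq2 (k t') _ ⟨t', ⟨h, rfl⟩, rfl⟩
        exact le_trans h4 hr2
    exact hp (a t) (a t') (hane t t' htt') (hJlow (a t') h3 hmem)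
  choose r hr1 hr2 using hr
  obtain ⟨i, j, hij, hle⟩ := hP' r
  exact hr2 i j hij (hJlow (a j) hle (hr1 j))

/-- The finite case. -/
theorem finite_case (μ : Cardinal.{u}) (hμ : μ < ℵ₀) (P : Type u) [PartialOrder P]
    (hP : InD μ P) : InD (Order.succ (μ ^ μ)) (Ideals P) := by
  classical
  rintro ⟨𝒜, hanti, hcard⟩
  obtain ⟨n, rfl⟩ := lt_aleph0.mp hμ
  rcases Nat.eq_zero_or_pos n with rfl | hn
  · exact hP ⟨∅, by simp [IsAntichain], by simp⟩
  have h1n : (1 : Cardinal.{u}) ≤ (n : Cardinal.{u}) := by exact_mod_cast hn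
  have hnn : (n : Cardinal.{u}) ≤ (n : Cardinal.{u}) ^ (n : Cardinal.{u}) :=
    self_le_power _ h1n
  have hn𝒜 : (n : Cardinal.{u}) < #𝒜 := by
    rw [hcard]
    exact Order.lt_succ_of_le hnn
  let J : 𝒜 → Set P := fun a => a.1.1
  have hJlow : ∀ a, IsLowerSet (J a) := fun a => a.1.2.1
  have hJdir : ∀ a, DirectedOn (· ≤ ·) (J a) := fun a => a.1.2.2
  have hJ : ∀ a b : 𝒜, a ≠ b → ∃ p, p ∈ J a ∧ p ∉ J b := by
    intro a b hab
    have h1 : ¬ (a.1 ≤ b.1) := hanti a.2 b.2 (fun h => hab (Subtype.ext h))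
    exact Set.not_subset.mp h1
  have hne𝒜 : ∃ a b : 𝒜, a ≠ b := by
    have h1 : (1 : Cardinal.{u}) < #𝒜 := h1n.trans_lt hn𝒜
    rw [one_lt_iff_nontrivial] at h1
    exact exists_pair_ne _
  have hJne : ∀ a : 𝒜, (J a).Nonempty := by
    intro a
    obtain ⟨x, y, hxy⟩ := hne𝒜
    by_cases h : a = x
    · obtain ⟨p, hp, _⟩ := hJ a y (h ▸ hxy)
      exact ⟨p, hp⟩
    · obtain ⟨p, hp, _⟩ := hJ a x h
      exact ⟨p, hp⟩
  have hp : ∀ a b : 𝒜, ∃ p : J a, a ≠ b → p.1 ∉ J b := by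
    intro a b
    by_cases h : a = b
    · obtain ⟨p, hp⟩ := hJne a
      exact ⟨⟨p, hp⟩, fun h' => absurd h h'⟩
    · obtain ⟨p, hp1, hp2⟩ := hJ a b h
      exact ⟨⟨p, hp1⟩, fun _ => hp2⟩
  choose p hp using hp
  have hT : #(ULift.{u} (Fin n)) = n := by simp
  obtain ⟨ι⟩ : Nonempty (ULift.{u} (Fin n) ↪ 𝒜) := by
    rw [← Cardinal.le_def, hT]
    exact hn𝒜.le
  have hr : ∀ t, ∃ r : P, r ∈ J (ι t) ∧ ∀ t', t ≠ t' → r ∉ J (ι t') := by
    intro t
    have hdir : Directed (· ≤ ·) (fun x : J (ι t) => x.1) := by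
      intro x y
      obtain ⟨z, hz, hxz, hyz⟩ := hJdir (ι t) x.1 x.2 y.1 y.2
      exact ⟨⟨z, hz⟩, hxz, hyz⟩
    have := (hJne (ι t)).to_subtype
    obtain ⟨z, hz⟩ := hdir.finset_le (Finset.univ.image (fun t' => p (ι t) (ι t')))
    refine ⟨z.1, z.2, ?_⟩
    intro t' htt' hmem
    have h3 : (p (ι t) (ι t')).1 ≤ z.1 :=
      hz _ (Finset.mem_image_of_mem _ (Finset.mem_univ t'))
    exact hp (ι t) (ι t') (fun h => htt' (ι.injective h)) (hJlow (ι t') h3 hmem)
  choose r hr1 hr2 using hr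
  have hanti' : ∀ i j, i ≠ j → ¬ r i ≤ r j := by
    intro i j hij hle
    exact hr2 i j hij (hJlow (ι j) hle (hr1 j))
  refine hP ⟨Set.range r, ?_, ?_⟩
  · rintro _ ⟨i, rfl⟩ _ ⟨j, rfl⟩ hne hle
    exact hanti' i j (fun h => hne (by rw [h])) hle
  · rw [mk_range_eq r (fun i j hij => by
      by_contra hne
      exact hanti' i j hne hij.le), hT]

/-- `Q2` holds at every cardinal `μ` such that `2 ^ ν ≤ μ` for all infinite `ν < μ`. -/
theorem below (μ : Cardinal.{u}) (h : ∀ ν : Cardinal.{u}, ℵ₀ ≤ ν → ν < μ → 2 ^ ν ≤ μ)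
    (P : Type u) [PartialOrder P] (hP : InD μ P) :
    InD (Order.succ (μ ^ μ)) (Ideals P) := by
  rcases lt_or_ge μ ℵ₀ with hμ | hμ
  · exact finite_case μ hμ P hP
  · have h1 : (2 : Cardinal.{u}) ^< μ = μ := by
      refine le_antisymm (powerlt_le.mpr fun ν hν => ?_) (le_two_powerlt μ)
      rcases lt_or_ge ν ℵ₀ with h2 | h2
      · exact (power_lt_aleph0 (by exact_mod_cast natCast_lt_aleph0 (n := 2)) h2).le.trans hμ
      · exact h ν h2 hν
    have h2 := main μ hμ P hP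
    rw [h1] at h2
    rwa [power_self_eq hμ]

/-- The poset of ideals of a poset without antichains of size `μ`: for every infinite `μ` it has no
antichain of size `(2 ^ (2 ^< μ))⁺`; it has no antichain of size `(μ ^ μ)⁺` whenever `2 ^ ν ≤ μ`
for all infinite `ν < μ`; and under GCH it has none of size `(μ ^ μ)⁺` for any `μ`. -/
theorem result :
    (∀ μ : Cardinal.{u}, ℵ₀ ≤ μ → ∀ (P : Type u) [PartialOrder P],
      InD μ P → InD (Order.succ (2 ^ (2 ^< μ))) (Ideals P)) ∧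
    (∀ μ : Cardinal.{u}, (∀ ν : Cardinal.{u}, ℵ₀ ≤ ν → ν < μ → 2 ^ ν ≤ μ) →
      ∀ (P : Type u) [PartialOrder P], InD μ P → InD (Order.succ (μ ^ μ)) (Ideals P)) ∧
    ((∀ ν : Cardinal.{u}, ℵ₀ ≤ ν → 2 ^ ν = Order.succ ν) →
      ∀ (μ : Cardinal.{u}) (P : Type u) [PartialOrder P],
        InD μ P → InD (Order.succ (μ ^ μ)) (Ideals P)) := by
  refine ⟨fun μ hμ P _ hP => main μ hμ P hP, fun μ h P _ hP => below μ h P hP,
    fun h μ P _ hP => below μ (fun ν hν hνμ => ?_) P hP⟩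
  rw [h ν hν]
  exact Order.succ_le_of_lt hνμ

end Pool.Agent.Results.MP_88803c_co.IdealAntichainsTwoPow
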